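import Mathlib

set_option autoImplicit false

namespace Pool.Agent.Results.MP_36f7ac_an.Counterexample

open Matrix

abbrev Mat (N : ℕ) : Type := Matrix (Fin N) (Fin N) ℝ

/-- the product `A n * B n * ... * A 1 * B 1` -/
def pr {N : ℕ} : (n : ℕ) → (Fin n → Mat N) → (Fin n → Mat N) → Mat N
  | 0, _, _ => 1
  | n + 1, A, B => A (Fin.last n) * B (Fin.last n) *
      pr n (fun i => A i.castSucc) (fun i => B i.castSucc)

/-- max over the first tuple of the min over the second -/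
noncomputable def mu {N : ℕ} (ν : Mat N → ℝ) (𝒜 ℬ : Finset (Mat N)) (n : ℕ) : ℝ :=
  ⨆ A : Fin n → 𝒜, ⨅ B : Fin n → ℬ, ν (pr n (fun i => A i) fun i => B i)

/-- min over the second tuple of the max over the first -/
noncomputable def eta {N : ℕ} (ν : Mat N → ℝ) (𝒜 ℬ : Finset (Mat N)) (n : ℕ) : ℝ :=
  ⨅ B : Fin n → ℬ, ⨆ A : Fin n → 𝒜, ν (pr n (fun i => A i) fun i => B i)

/-- the norm: sum of the absolute values of the entries -/
noncomputable def nm {N : ℕ} (X : Mat N) : ℝ := ∑ i, ∑ j, |X i j|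

/-- the spectral radius -/
noncomputable def rho {N : ℕ} (X : Mat N) : ℝ :=
  (spectralRadius ℂ (X.map (fun x : ℝ => (x : ℂ)))).toReal

def AA (d : ℝ) : Mat 5 :=
  !![1, 0, 0, 0, 0; d, 5, 0, 0, 0; 0, 0, 1, 0, 0; 0, 0, d, 5, 0; 0, 0, 0, 0, 1]

def KK : Mat 5 :=
  !![0, 0, 0, -1, 1; 0, 0, 0, 0, 0; 1, 0, 0, 0, 0; 0, 0, 0, 0, 0; 0, 1, 0, 0, 0]

def MM (b v : ℝ) : Mat 5 :=
  !![1, 0, 0, 0, 0; v, b, 0, 0, 0; 0, 0, 1, 0, 0; 0, 0, v, b, 0; 0, 0, 0, 0, 1]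

def w (n : ℕ) : ℕ := n % 2 + ((n + 1) / 2 ^ (n + 1).factorization 2) % 4

lemma oc (k m : ℕ) (hm : m % 2 = 1) : (2 ^ k * m) / 2 ^ (2 ^ k * m).factorization 2 = m := by
  have h0 : m ≠ 0 := by omega
  have : (2 ^ k * m).factorization 2 = k := by
    rw [Nat.factorization_mul (by positivity) h0, Nat.Prime.factorization_pow Nat.prime_two]
    simp [Nat.factorization_eq_zero_of_not_dvd (show ¬ 2 ∣ m by omega)]
  rw [this, Nat.mul_div_cancel_left _ (by positivity)]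

lemma w_eq (n : ℕ) : ∃ m, m % 2 = 1 ∧ w n = n % 2 + m % 4 := by
  obtain ⟨k, m, hm, h⟩ := Nat.exists_eq_two_pow_mul_odd (show n + 1 ≠ 0 by omega)
  have hm := Nat.odd_iff.1 hm
  exact ⟨m, hm, by unfold w; rw [h, oc k m hm]⟩

lemma w_bd (n : ℕ) : 1 ≤ w n ∧ w n ≤ 4 := by
  obtain ⟨m, h1, h2⟩ := w_eq n
  omega

lemma sqf (i p : ℕ) (hp : 0 < p) : ∃ n, i ≤ n ∧ n < i + p ∧ w n ≠ w (n + p) := by
  obtain ⟨a, q, hq, rfl⟩ := Nat.exists_eq_two_pow_mul_odd hp.ne'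
  have hq := Nat.odd_iff.1 hq
  cases a with
  | zero =>
    obtain ⟨m, h1, h2⟩ := w_eq i
    obtain ⟨m', h3, h4⟩ := w_eq (i + 2 ^ 0 * q)
    exact ⟨i, le_rfl, by omega, by omega⟩
  | succ a =>
    have hT : 0 < 2 ^ a := by positivity
    obtain ⟨m, hm, h1, h2⟩ : ∃ m, m % 2 = 1 ∧ i < 2 ^ a * m ∧ 2 ^ a * m ≤ i + 2 * 2 ^ a := by
      have e := Nat.div_add_mod i (2 ^ a)
      have l := Nat.mod_lt i hT
      rcases Nat.mod_two_eq_zero_or_one (i / 2 ^ a) with h | h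
      · exact ⟨i / 2 ^ a + 1, by omega, by rw [mul_add]; omega, by rw [mul_add]; omega⟩
      · exact ⟨i / 2 ^ a + 2, by omega, by rw [mul_add]; omega, by rw [mul_add]; omega⟩
    have h3 : 2 * 2 ^ a ≤ 2 ^ (a + 1) * q := by
      rw [pow_succ']; exact Nat.le_mul_of_pos_right _ (by omega)
    refine ⟨2 ^ a * m - 1, by omega, by omega, ?_⟩
    have e1 : 2 ^ a * m - 1 + 1 = 2 ^ a * m := by omega
    have e2 : 2 ^ a * m - 1 + 2 ^ (a + 1) * q + 1 = 2 ^ a * (m + 2 * q) := by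
      rw [add_right_comm, e1]; ring
    have e3 : 2 ^ (a + 1) * q = 2 * (2 ^ a * q) := by ring
    unfold w
    rw [e1, e2, oc a m hm, oc a (m + 2 * q) (by omega), e3]
    omega

def val (j : ℕ) : ℕ → ℕ
  | 0 => 0
  | l + 1 => 5 * val j l + w (j + l)

lemma val_inj (i j : ℕ) : ∀ l k, val i l = val j k → l = k ∧ ∀ s < l, w (i + s) = w (j + s) := by
  intro l
  induction l with
  | zero =>
    intro k h
    cases k with
    | zero => simp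
    | succ k => have := w_bd (j + k); simp only [val] at h; omega
  | succ l ih =>
    intro k h
    have b := w_bd (i + l)
    cases k with
    | zero => simp only [val] at h; omega
    | succ k =>
      have b' := w_bd (j + k)
      simp only [val] at h
      obtain ⟨rfl, h2⟩ := ih k (by omega)
      refine ⟨rfl, fun s hs => ?_⟩
      rcases Nat.lt_succ_iff_lt_or_eq.1 hs with h3 | rfl
      · exact h2 s h3
      · omega

lemma val_ne (i l k : ℕ) : val i l ≠ val (i + l) (k + 1) := by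
  intro h
  obtain ⟨rfl, h2⟩ := val_inj _ _ _ _ h
  obtain ⟨n, h3, h4, h5⟩ := sqf i (k + 1) (by omega)
  have := h2 (n - i) (by omega)
  rw [show i + (n - i) = n by omega, show i + (k + 1) + (n - i) = n + (k + 1) by omega] at this
  exact h5 this

def Inv (n : ℕ) (x : Fin 5 → ℝ) : Prop := ∃ c : ℤ, c ≠ 0 ∧
  ((∃ j l, j + l = n ∧ x = ![(c : ℝ), c * val j l, 0, 0, 0]) ∨
   ∃ i l k, i + l + (k + 1) = n ∧ x = ![0, 0, (c : ℝ), c * val (i + l) (k + 1), c * val i l])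

lemma step {n : ℕ} {x : Fin 5 → ℝ} (h : Inv n x) {B : Mat 5} (hB : B = 1 ∨ B = KK) :
    Inv (n + 1) ((AA (w n) * B) *ᵥ x) := by
  obtain ⟨c, hc, ⟨j, l, rfl, rfl⟩ | ⟨i, l, k, rfl, rfl⟩⟩ := h <;> rcases hB with rfl | rfl
  · refine ⟨c, hc, Or.inl ⟨j, l + 1, rfl, ?_⟩⟩
    ext a; fin_cases a <;> simp [AA, val, mulVec, dotProduct, Fin.sum_univ_succ]
    ring
  · refine ⟨c, hc, Or.inr ⟨j, l, 0, rfl, ?_⟩⟩
    rw [← mulVec_mulVec]
    ext a; fin_cases a <;> simp [AA, KK, val, mulVec, dotProduct, Fin.sum_univ_succ, mul_comm]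
  · refine ⟨c, hc, Or.inr ⟨i, l, k + 1, rfl, ?_⟩⟩
    rw [val.eq_2 _ (k + 1)]
    ext a; fin_cases a <;> simp [AA, mulVec, dotProduct, Fin.sum_univ_succ]
    ring
  · refine ⟨c * (val i l - val (i + l) (k + 1)), mul_ne_zero hc
      (sub_ne_zero.2 (by exact_mod_cast val_ne i l k)), Or.inl ⟨_, 1, rfl, ?_⟩⟩
    rw [← mulVec_mulVec, val.eq_2 _ 0]
    ext a; fin_cases a <;> simp [AA, KK, val.eq_1, mulVec, dotProduct, Fin.sum_univ_succ] <;> ring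

lemma inv : ∀ (n : ℕ) (B : Fin n → Mat 5), (∀ i, B i = 1 ∨ B i = KK) →
    Inv n (pr n (fun i => AA (w i)) B *ᵥ ![1, 0, 0, 0, 0])
  | 0, _, _ => ⟨1, one_ne_zero, Or.inl ⟨0, 0, rfl, by simp [pr, val]⟩⟩
  | n + 1, B, h => by
    rw [pr, ← mulVec_mulVec]
    exact step (inv n _ fun i => h _) (h _)

lemma nm_ge (n : ℕ) (B : Fin n → Mat 5) (h : ∀ i, B i = 1 ∨ B i = KK) :
    1 ≤ nm (pr n (fun i => AA (w i)) B) := by
  have k : ∀ (X : Mat 5) (a : Fin 5), |(X *ᵥ ![1, 0, 0, 0, 0]) a| ≤ nm X := fun X a => by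
    have : (X *ᵥ ![1, 0, 0, 0, 0]) a = X a 0 := by simp [mulVec, dotProduct, Fin.sum_univ_succ]
    rw [this]
    exact (Finset.single_le_sum (f := fun j => |X a j|) (fun _ _ => abs_nonneg _)
      (Finset.mem_univ 0)).trans (Finset.single_le_sum (f := fun i => ∑ j, |X i j|)
      (fun _ _ => Finset.sum_nonneg fun _ _ => abs_nonneg _) (Finset.mem_univ a))
  obtain ⟨c, hc, h1⟩ := inv n B h
  have b : (1 : ℝ) ≤ |(c : ℝ)| := by exact_mod_cast Int.one_le_abs hc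
  rcases h1 with ⟨j, l, -, e⟩ | ⟨i, l, k', -, e⟩
  · have := k (pr n (fun i => AA (w i)) B) 0
    rw [e] at this
    exact b.trans this
  · have := k (pr n (fun i => AA (w i)) B) 2
    rw [e] at this
    exact b.trans this

lemma form : ∀ (n : ℕ) (A : Fin (n + 1) → Mat 5), (∀ i, ∃ d, A i = AA d) →
    ∃ b v, pr (n + 1) A (fun i => if i.val = 0 then KK else 1) = MM b v * KK
  | 0, A, h => by
    obtain ⟨d, hd⟩ := h (Fin.last 0)
    exact ⟨5, d, by rw [pr, pr, hd, mul_one]; rfl⟩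
  | n + 1, A, h => by
    obtain ⟨d, hd⟩ := h (Fin.last _)
    obtain ⟨b, v, e⟩ := form n (fun i => A i.castSucc) fun i => h _
    refine ⟨5 * b, d + 5 * v, ?_⟩
    rw [pr, hd, if_neg (by simp), mul_one]
    simp only [Fin.val_castSucc]
    rw [e, ← mul_assoc]
    congr 1
    ext i j; fin_cases i <;> fin_cases j <;> simp [AA, MM, mul_apply, Fin.sum_univ_succ]

lemma rho_zero (b v : ℝ) : rho (MM b v * KK) = 0 := by
  have e : MM b v * KK =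
      !![0, 0, 0, -1, 1; 0, 0, 0, -v, v; 1, 0, 0, 0, 0; v, 0, 0, 0, 0; 0, 1, 0, 0, 0] := by
    ext i j; fin_cases i <;> fin_cases j <;> simp [KK, MM, mul_apply, Fin.sum_univ_succ]
  have e2 : (MM b v * KK) * (MM b v * KK) =
      !![-v, 1, 0, 0, 0; -v * v, v, 0, 0, 0; 0, 0, 0, -1, 1; 0, 0, 0, -v, v; 0, 0, 0, -v, v] := by
    rw [e]
    ext i j; fin_cases i <;> fin_cases j <;> simp [mul_apply, Fin.sum_univ_succ]
  have e4 : (MM b v * KK) ^ 4 = 0 := by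
    rw [show 4 = 2 + 2 by rfl, pow_add, sq, e2]
    ext i j; fin_cases i <;> fin_cases j <;> simp [mul_apply, Fin.sum_univ_succ] <;> ring
  have hn : IsNilpotent ((MM b v * KK).map (fun x : ℝ => (x : ℂ))) :=
    (show IsNilpotent (MM b v * KK) from ⟨4, e4⟩).map (Complex.ofRealHom.mapMatrix)
  have : spectralRadius ℂ ((MM b v * KK).map (fun x : ℝ => (x : ℂ))) = 0 := by
    unfold spectralRadius
    simp only [ENNReal.iSup_eq_zero]
    intro z hz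
    by_contra h0
    have hz0 : z ≠ 0 := fun a => h0 (by simp [a])
    refine spectrum.mem_iff.1 hz ?_
    rw [sub_eq_add_neg]
    exact hn.neg.isUnit_add_left_of_commute ((Ne.isUnit hz0).map _) (Algebra.commutes z _).symm
  rw [rho, this]; rfl

lemma gen1 {α β : Type} [Finite α] [Nonempty β] (F : α → β → ℝ) (a : α) (h : ∀ b, 1 ≤ F a b) :
    1 ≤ ⨆ a, ⨅ b, F a b ∧ 1 ≤ ⨅ b, ⨆ a, F a b :=
  ⟨le_ciSup_of_le (Finite.bddAbove_range _) a (le_ciInf h), le_ciInf fun b =>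
    le_ciSup_of_le (f := fun a => F a b) (Finite.bddAbove_range _) a (h b)⟩

lemma gen2 {α β : Type} [Nonempty α] [Finite β] (F : α → β → ℝ) (b : β) (h : ∀ a, F a b = 0)
    (p : ∀ a b, 0 ≤ F a b) : ⨆ a, ⨅ b, F a b = 0 ∧ ⨅ b, ⨆ a, F a b = 0 := by
  have : Nonempty β := ⟨b⟩
  constructor
  · have : ∀ a, ⨅ b, F a b = 0 := fun a =>
      le_antisymm ((ciInf_le (Finite.bddBelow_range _) b).trans (h a).le) (le_ciInf (p a))
    simp only [this, ciSup_const]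
  · refine le_antisymm ((ciInf_le (f := fun b => ⨆ a, F a b) (Finite.bddBelow_range _) b).trans ?_)
      (le_ciInf fun _ => Real.iSup_nonneg fun _ => p _ _)
    simp only [h, ciSup_const, le_refl]

theorem result : ∃ (N : ℕ) (𝒜 ℬ : Finset (Mat N)), 1 ≤ N ∧ 𝒜.Nonempty ∧ ℬ.Nonempty ∧
    ∀ n, 1 ≤ n → 1 ≤ mu nm 𝒜 ℬ n ∧ 1 ≤ eta nm 𝒜 ℬ n ∧
      mu rho 𝒜 ℬ n = 0 ∧ eta rho 𝒜 ℬ n = 0 := by
  obtain ⟨𝒜, h𝒜⟩ : ∃ 𝒜 : Finset (Mat 5), ∀ X, X ∈ 𝒜 ↔ ∃ d : ℕ, d < 5 ∧ AA d = X := by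
    classical
    exact ⟨(Finset.range 5).image fun d : ℕ => AA d, fun X => by
      simp only [Finset.mem_image, Finset.mem_range]⟩
  obtain ⟨ℬ, hℬ⟩ : ∃ ℬ : Finset (Mat 5), ∀ X, X ∈ ℬ ↔ X = 1 ∨ X = KK := by
    classical
    exact ⟨{1, KK}, fun X => by simp only [Finset.mem_insert, Finset.mem_singleton]⟩
  have mA : ∀ n, AA (w n) ∈ 𝒜 := fun n => (h𝒜 _).2 ⟨w n, by have := w_bd n; omega, rfl⟩
  have hA : ∀ A : 𝒜, ∃ d, A.1 = AA d := fun A => by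
    obtain ⟨d, -, e⟩ := (h𝒜 _).1 A.2
    exact ⟨d, e.symm⟩
  have hB : ∀ B : ℬ, B.1 = 1 ∨ B.1 = KK := fun B => (hℬ _).1 B.2
  have m1 : (1 : Mat 5) ∈ ℬ := (hℬ _).2 (Or.inl rfl)
  have : Nonempty 𝒜 := ⟨⟨_, mA 0⟩⟩
  have : Nonempty ℬ := ⟨⟨1, m1⟩⟩
  refine ⟨5, 𝒜, ℬ, by norm_num, ⟨_, mA 0⟩, ⟨1, m1⟩, fun n hn => ?_⟩
  obtain ⟨n, rfl⟩ : ∃ m, n = m + 1 := ⟨n - 1, by omega⟩
  obtain ⟨B0, e0⟩ : ∃ B0 : Fin (n + 1) → ℬ,
      (fun i => (B0 i : Mat 5)) = fun i : Fin (n + 1) => if i.val = 0 then KK else 1 :=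
    ⟨fun i => ⟨if i.val = 0 then KK else 1, (hℬ _).2 (by split_ifs <;> simp)⟩, rfl⟩
  have z : ∀ A : Fin (n + 1) → 𝒜,
      rho (pr (n + 1) (fun i => (A i : Mat 5)) fun i => (B0 i : Mat 5)) = 0 := by
    intro A
    obtain ⟨b, v, e⟩ := form n (fun i => A i) fun i => hA _
    rw [e0, e, rho_zero]
  have q : ∀ B : Fin (n + 1) → ℬ, 1 ≤ nm (pr (n + 1) (fun i : Fin (n + 1) => AA (w i))
      fun i => B i) :=
    fun B => nm_ge _ _ fun i => hB _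
  obtain ⟨A0, e1⟩ : ∃ A0 : Fin (n + 1) → 𝒜,
      (fun i => (A0 i : Mat 5)) = fun i : Fin (n + 1) => AA (w i) :=
    ⟨fun i => ⟨_, mA i⟩, rfl⟩
  rw [← e1] at q
  have p : ∀ X : Mat 5, 0 ≤ rho X := fun _ => ENNReal.toReal_nonneg
  exact ⟨(gen1 (fun (A : Fin (n + 1) → 𝒜) (B : Fin (n + 1) → ℬ) =>
      nm (pr (n + 1) (fun i => (A i : Mat 5)) fun i => (B i : Mat 5))) A0 q).1,
    (gen1 (fun (A : Fin (n + 1) → 𝒜) (B : Fin (n + 1) → ℬ) =>
      nm (pr (n + 1) (fun i => (A i : Mat 5)) fun i => (B i : Mat 5))) A0 q).2,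
    gen2 (fun (A : Fin (n + 1) → 𝒜) (B : Fin (n + 1) → ℬ) =>
      rho (pr (n + 1) (fun i => (A i : Mat 5)) fun i => (B i : Mat 5))) B0 z fun _ _ => p _⟩

end Pool.Agent.Results.MP_36f7ac_an.Counterexample
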